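import Pool.Agent.TH869.PM.Mt

/-!
# Primes just above the dilates of powers of two

The question asks whether every interval `[2^n, 2^n + p_n]` contains a prime.  We show that the
corresponding intervals at almost every dilate of the powers of two contain primes, and even the
expected order of magnitude `log n` of primes, along every sequence of exponents with positive upper
density; and that they contain a prime even if the length `p_n ~ n log n` of the intervals is
replaced by `ε n`.  The latter is proved for the dilates of any sequence `a_k → ∞` of real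
numbers and the intervals `(x a_k, x a_k + ε log a_k]`.
-/

set_option autoImplicit false

namespace Pool.Agent.Results.MP_78b39f_nt.AlmostEveryDilate

open Filter MeasureTheory Topology

/-- The number of the primes in the interval `(b, b + H]`. -/
noncomputable def primesIn (b H : ℝ) : ℕ := Set.ncard {p : ℕ | p.Prime ∧ b < p ∧ (p : ℝ) ≤ b + H}

open Classical in
/-- The number of the indices `k < K` for which there are at least `R k` primes in the interval
`(b k, b k + H k]`. -/
noncomputable def hits (b H R : ℕ → ℝ) (K : ℕ) : ℕ :=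
  Finset.card (Finset.filter (fun k => R k ≤ (primesIn (b k) (H k) : ℝ)) (Finset.range K))

theorem card_le_primesIn (b H : ℝ) (s : Finset ℕ)
    (hs : ∀ p ∈ s, p.Prime ∧ b < p ∧ (p : ℝ) ≤ b + H) : s.card ≤ primesIn b H := by
  unfold primesIn
  rw [← Set.ncard_coe_finset s]
  refine Set.ncard_le_ncard (fun p hp => hs p hp) ?_
  exact (Set.finite_Iic ⌊b + H⌋₊).subset fun p hp => Nat.le_floor hp.2.2

theorem primesIn_mono (b H H' : ℝ) (h : H ≤ H') : primesIn b H ≤ primesIn b H' := by
  unfold primesIn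
  refine Set.ncard_le_ncard (fun p hp => ⟨hp.1, hp.2.1, hp.2.2.trans (by linarith)⟩) ?_
  exact (Set.finite_Iic ⌊b + H'⌋₊).subset fun p hp => Nat.le_floor hp.2.2

theorem hits_mono (b H H' R : ℕ → ℝ) (h : ∀ k, H k ≤ H' k) (K : ℕ) :
    hits b H R K ≤ hits b H' R K := by
  classical
  unfold hits
  apply Finset.card_le_card
  intro k hk
  rw [Finset.mem_filter] at hk ⊢
  exact ⟨hk.1, hk.2.trans (by exact_mod_cast primesIn_mono _ _ _ (h k))⟩

theorem primeCounting_nth (n : ℕ) : Nat.primeCounting (Nat.nth Nat.Prime n) = n + 1 := by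
  have h1 : (Nat.nth Nat.Prime n).Prime := Nat.prime_nth_prime n
  rw [Nat.primeCounting, Nat.primeCounting', Nat.count_succ, if_pos h1]
  congr 1
  exact Nat.primeCounting'_nth_eq n

/-- a lower bound for the `n`-th prime -/
theorem pn_big : ∀ᶠ n : ℕ in atTop,
    (n : ℝ) * Real.log n / 2 ≤ (Nat.nth Nat.Prime (n - 1) : ℝ) := by
  have h1 := Pool.Agent.Helper799.PNT.pi_tendsto.eventually (gt_mem_nhds (show (1 : ℝ) < 2 by norm_num))
  have h2 : ∀ᶠ n : ℕ in atTop, (Nat.primeCounting ⌊(n : ℝ)⌋₊ : ℝ) * Real.log n / n < 2 :=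
    tendsto_natCast_atTop_atTop.eventually h1
  obtain ⟨n0, hn0⟩ := eventually_atTop.mp h2
  filter_upwards [eventually_ge_atTop (n0 + 2)] with n hn
  have h3 := Nat.add_two_le_nth_prime (n - 1)
  have h4 : n ≤ Nat.nth Nat.Prime (n - 1) := by omega
  have h5 := hn0 (Nat.nth Nat.Prime (n - 1)) (by omega)
  rw [Nat.floor_natCast, primeCounting_nth] at h5
  have h6 : n - 1 + 1 = n := by omega
  rw [h6] at h5
  have hpos : (0 : ℝ) < (Nat.nth Nat.Prime (n - 1) : ℝ) := by
    have : 0 < Nat.nth Nat.Prime (n - 1) := by omega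
    exact_mod_cast this
  rw [div_lt_iff₀ hpos] at h5
  have hn1 : (0 : ℝ) < n := by
    have : 0 < n := by omega
    exact_mod_cast this
  have h7 : Real.log n ≤ Real.log (Nat.nth Nat.Prime (n - 1) : ℝ) :=
    Real.log_le_log hn1 (by exact_mod_cast h4)
  have h8 : (n : ℝ) * Real.log n ≤ n * Real.log (Nat.nth Nat.Prime (n - 1) : ℝ) := by gcongr
  linarith

/-- **Primes just above almost every dilate of a sequence.**
1. For every `0 < ε ≤ 1` there is `c > 0` such that for every sequence `a_k → ∞` of real numbers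
and almost every `x > 0` there are infinitely many `K` such that for more than `c K` of the `k < K`
there is a prime in `(x a_k, x a_k + ε log a_k]`.
2. For every `0 < ε ≤ 1` there is `c > 0` such that for every sequence `n_k → ∞` of natural numbers
and almost every `x > 0` there are infinitely many `K` such that for more than `c K` of the `k < K`
there is a prime in `(x 2^(n_k), x 2^(n_k) + ε n_k]`.
3. There is `c > 0` such that for every sequence `n_k → ∞` of natural numbers and
almost every `x > 0` there are infinitely many `K` such that for more than `c K` of the `k < K`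
there are at least `c log n` primes in `(x 2^n, x 2^n + p_n]`, `n = n_k`, where `p_n` is the
`n`-th prime. -/
theorem result :
    (∀ ε : ℝ, 0 < ε → ε ≤ 1 → ∃ c : ℝ, 0 < c ∧ ∀ a : ℕ → ℝ, Tendsto a atTop atTop →
      ∀ᵐ x ∂(volume : Measure ℝ), 0 < x → ∃ᶠ K : ℕ in atTop,
        c * K < hits (fun k => x * a k) (fun k => ε * Real.log (a k)) (fun _ => 1) K) ∧
    (∀ ε : ℝ, 0 < ε → ε ≤ 1 → ∃ c : ℝ, 0 < c ∧ ∀ n : ℕ → ℕ, Tendsto n atTop atTop →
      ∀ᵐ x ∂(volume : Measure ℝ), 0 < x → ∃ᶠ K : ℕ in atTop,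
        c * K < hits (fun k => x * 2 ^ n k) (fun k => ε * n k) (fun _ => 1) K) ∧
    (∃ c : ℝ, 0 < c ∧ ∀ n : ℕ → ℕ, Tendsto n atTop atTop →
      ∀ᵐ x ∂(volume : Measure ℝ), 0 < x → ∃ᶠ K : ℕ in atTop,
        c * K < hits (fun k => x * 2 ^ n k) (fun k => (Nat.nth Nat.Prime (n k - 1) : ℝ))
          (fun k => c * Real.log (n k)) K) := by
  classical
  have P1 : ∀ ε : ℝ, 0 < ε → ε ≤ 1 → ∃ c : ℝ, 0 < c ∧ ∀ a : ℕ → ℝ, Tendsto a atTop atTop →
      ∀ᵐ x ∂(volume : Measure ℝ), 0 < x → ∃ᶠ K : ℕ in atTop,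
        c * K < hits (fun k => x * a k) (fun k => ε * Real.log (a k)) (fun _ => 1) K := by
    intro ε hε hε1
    obtain ⟨c, hc, H⟩ := Pool.Agent.TH869.PM.dilates ε hε hε1
    refine ⟨c, hc, ?_⟩
    intro a ha
    filter_upwards [H a ha] with x hx hx0
    refine (hx hx0).mono fun K hK => hK.trans_le ?_
    have e : Pool.Agent.TH869.PM.cnt
        (fun k => Pool.Agent.TH869.PM.Near (a k) (ε * Real.log (a k))) K x ≤
        hits (fun k => x * a k) (fun k => ε * Real.log (a k)) (fun _ => 1) K := by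
      unfold Pool.Agent.TH869.PM.cnt hits
      apply Finset.card_le_card
      intro k hk
      rw [Finset.mem_filter] at hk ⊢
      obtain ⟨h1, p, h2, h3, h4⟩ := hk
      refine ⟨h1, ?_⟩
      have h5 := card_le_primesIn (x * a k) (ε * Real.log (a k)) {p} (by
        intro q hq
        rw [Finset.mem_singleton] at hq
        rw [hq]
        exact ⟨h2, h3, h4⟩)
      rw [Finset.card_singleton] at h5
      show (1 : ℝ) ≤ (primesIn (x * a k) (ε * Real.log (a k)) : ℝ)
      exact_mod_cast h5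
    exact_mod_cast e
  have P2 : ∀ ε : ℝ, 0 < ε → ε ≤ 1 → ∃ c : ℝ, 0 < c ∧ ∀ n : ℕ → ℕ, Tendsto n atTop atTop →
      ∀ᵐ x ∂(volume : Measure ℝ), 0 < x → ∃ᶠ K : ℕ in atTop,
        c * K < hits (fun k => x * 2 ^ n k) (fun k => ε * n k) (fun _ => 1) K := by
    intro ε hε hε1
    obtain ⟨c, hc, H⟩ := P1 ε hε hε1
    refine ⟨c, hc, ?_⟩
    intro n hn
    have h1 : Tendsto (fun k => (2 : ℝ) ^ n k) atTop atTop :=
      (tendsto_pow_atTop_atTop_of_one_lt (by norm_num : (1 : ℝ) < 2)).comp hn
    filter_upwards [H _ h1] with x hx hx0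
    refine (hx hx0).mono fun K hK => hK.trans_le ?_
    have h2 := hits_mono (fun k => x * 2 ^ n k) (fun k => ε * Real.log ((2 : ℝ) ^ n k))
      (fun k => ε * n k) (fun _ => 1) (by
        intro k
        have h4 : Real.log ((2 : ℝ) ^ n k) ≤ n k := by
          rw [Real.log_pow]
          have h5 : Real.log 2 ≤ 1 := by
            have := Real.log_two_lt_d9
            linarith
          have h6 : (0 : ℝ) ≤ n k := Nat.cast_nonneg _
          nlinarith
        exact mul_le_mul_of_nonneg_left h4 hε.le) K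
    exact_mod_cast h2
  refine ⟨P1, P2, ?_⟩
  obtain ⟨c, hc, H⟩ := Pool.Agent.TH869.PM.dilates2
  refine ⟨min (c / 4) (c / 2), by positivity, ?_⟩
  intro n hn
  set c' : ℝ := min (c / 4) (c / 2) with hc'
  have hc'1 : c' ≤ c / 4 := min_le_left _ _
  have hc'2 : c' ≤ c / 2 := min_le_right _ _
  set L : ℕ → ℕ := fun k => min (Nat.nth Nat.Prime (n k - 1) / n k) (n k) with hL
  have ha : Tendsto (fun k => (2 : ℝ) ^ n k) atTop atTop :=
    (tendsto_pow_atTop_atTop_of_one_lt (by norm_num : (1 : ℝ) < 2)).comp hn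
  have hlog : ∀ k, Real.log ((2 : ℝ) ^ n k) ≤ n k := by
    intro k
    rw [Real.log_pow]
    have h5 : Real.log 2 ≤ 1 := by
      have := Real.log_two_lt_d9
      linarith
    have h6 : (0 : ℝ) ≤ n k := Nat.cast_nonneg _
    nlinarith
  have hlog0 : ∀ k, 0 ≤ Real.log ((2 : ℝ) ^ n k) := by
    intro k
    apply Real.log_nonneg
    exact one_le_pow₀ (by norm_num)
  have hLt : Tendsto (fun k => (L k : ℝ) * Real.log ((2 : ℝ) ^ n k) / (2 : ℝ) ^ n k) atTop (𝓝 0) := by
    have h1 : Tendsto (fun m : ℕ => (m : ℝ) ^ 2 / (2 : ℝ) ^ m) atTop (𝓝 0) :=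
      tendsto_pow_const_div_const_pow_of_one_lt 2 (by norm_num)
    refine squeeze_zero (fun k => ?_) (fun k => ?_) (h1.comp hn)
    · have := hlog0 k
      positivity
    · show (L k : ℝ) * Real.log ((2 : ℝ) ^ n k) / (2 : ℝ) ^ n k ≤ (n k : ℝ) ^ 2 / (2 : ℝ) ^ n k
      have h2 : (L k : ℝ) ≤ n k := by
        have : L k ≤ n k := min_le_right _ _
        exact_mod_cast this
      have h3 := hlog k
      have h4 : (L k : ℝ) * Real.log ((2 : ℝ) ^ n k) ≤ (n k : ℝ) ^ 2 := by
        calc _ ≤ (n k : ℝ) * n k := mul_le_mul h2 h3 (hlog0 k) (Nat.cast_nonneg _)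
          _ = _ := by ring
      gcongr
  -- the inclusion for large `k`
  have hbig : ∀ᶠ k in atTop, ∀ x : ℝ,
      x ∈ Pool.Agent.TH869.PM.Many ((2 : ℝ) ^ n k) (L k * Real.log ((2 : ℝ) ^ n k)) (c * L k) →
      c' * Real.log (n k) ≤ (primesIn (x * 2 ^ n k) (Nat.nth Nat.Prime (n k - 1) : ℝ) : ℝ) := by
    have hlg : ∀ᶠ m : ℕ in atTop, (4 : ℝ) ≤ Real.log m :=
      (Real.tendsto_log_atTop.comp tendsto_natCast_atTop_atTop).eventually_ge_atTop 4
    filter_upwards [hn.eventually pn_big, hn.eventually hlg, hn.eventually_gt_atTop 0]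
      with k h1 h2 h3 x hx
    obtain ⟨s, hs1, hs2⟩ := hx
    have hnr : (0 : ℝ) < n k := by exact_mod_cast h3
    have h4 : L k * n k ≤ Nat.nth Nat.Prime (n k - 1) :=
      (Nat.mul_le_mul_right _ (min_le_left _ _)).trans (Nat.div_mul_le_self _ _)
    have h4r : (L k : ℝ) * n k ≤ (Nat.nth Nat.Prime (n k - 1) : ℝ) := by exact_mod_cast h4
    have h5 : (L k : ℝ) * Real.log ((2 : ℝ) ^ n k) ≤ (Nat.nth Nat.Prime (n k - 1) : ℝ) :=
      (mul_le_mul_of_nonneg_left (hlog k) (Nat.cast_nonneg _)).trans h4r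
    have h6 := card_le_primesIn (x * 2 ^ n k) (Nat.nth Nat.Prime (n k - 1) : ℝ) s (by
      intro p hp
      obtain ⟨g1, g2, g3⟩ := hs2 p hp
      exact ⟨g1, g2, by linarith⟩)
    have h6r : (s.card : ℝ) ≤
        (primesIn (x * 2 ^ n k) (Nat.nth Nat.Prime (n k - 1) : ℝ) : ℝ) := by exact_mod_cast h6
    have h7 : Real.log (n k) / 4 ≤ (L k : ℝ) := by
      have h8 : Real.log (n k) / 4 ≤ ((Nat.nth Nat.Prime (n k - 1) / n k : ℕ) : ℝ) := by
        have h9 : (Nat.nth Nat.Prime (n k - 1) : ℝ) <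
            (((Nat.nth Nat.Prime (n k - 1) / n k : ℕ) : ℝ) + 1) * n k := by
          have := Nat.lt_div_mul_add (a := Nat.nth Nat.Prime (n k - 1)) h3
          have h10 : Nat.nth Nat.Prime (n k - 1) <
              (Nat.nth Nat.Prime (n k - 1) / n k + 1) * n k := by
            rw [add_mul, one_mul]
            exact this
          exact_mod_cast h10
        have h11 : (n k : ℝ) * Real.log (n k) / 2 <
            (((Nat.nth Nat.Prime (n k - 1) / n k : ℕ) : ℝ) + 1) * n k := lt_of_le_of_lt h1 h9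
        have h12 : Real.log (n k) / 2 < ((Nat.nth Nat.Prime (n k - 1) / n k : ℕ) : ℝ) + 1 := by
          refine lt_of_mul_lt_mul_right ?_ hnr.le
          calc Real.log (n k) / 2 * n k = (n k : ℝ) * Real.log (n k) / 2 := by ring
            _ < _ := h11
        linarith
      have h13 : Real.log (n k) / 4 ≤ (n k : ℝ) := by
        have h14 : Real.log (n k) ≤ (n k : ℝ) := by
          have := Real.log_le_sub_one_of_pos hnr
          linarith
        linarith
      rw [hL]
      simp only [Nat.cast_min]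
      exact le_min h8 h13
    calc c' * Real.log (n k) ≤ c / 4 * Real.log (n k) := by
          apply mul_le_mul_of_nonneg_right hc'1
          linarith
      _ = c * (Real.log (n k) / 4) := by ring
      _ ≤ c * L k := by gcongr
      _ ≤ _ := hs1.trans h6r
  obtain ⟨k0, hk0⟩ := eventually_atTop.mp hbig
  filter_upwards [H _ L ha hLt] with x hx hx0
  have hK0 : ∀ᶠ K : ℕ in atTop, (2 * (k0 : ℝ)) / c ≤ K :=
    tendsto_natCast_atTop_atTop.eventually_ge_atTop _
  refine ((hx hx0).and_eventually hK0).mono fun K hK => ?_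
  obtain ⟨hK1, hK2⟩ := hK
  have h1 : Pool.Agent.TH869.PM.cnt (fun k => Pool.Agent.TH869.PM.Many ((2 : ℝ) ^ n k)
      (L k * Real.log ((2 : ℝ) ^ n k)) (c * L k)) K x ≤
      hits (fun k => x * 2 ^ n k) (fun k => (Nat.nth Nat.Prime (n k - 1) : ℝ))
          (fun k => c' * Real.log (n k)) K + k0 := by
    unfold Pool.Agent.TH869.PM.cnt hits
    have h2 : Finset.filter (fun k => x ∈ Pool.Agent.TH869.PM.Many ((2 : ℝ) ^ n k)
        (L k * Real.log ((2 : ℝ) ^ n k)) (c * L k)) (Finset.range K) ⊆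
        Finset.filter (fun k => c' * Real.log (n k) ≤
          (primesIn (x * 2 ^ n k) (Nat.nth Nat.Prime (n k - 1) : ℝ) : ℝ)) (Finset.range K) ∪
        Finset.range k0 := by
      intro k hk
      rw [Finset.mem_filter] at hk
      rw [Finset.mem_union, Finset.mem_filter]
      by_cases h3 : k0 ≤ k
      · exact Or.inl ⟨hk.1, hk0 k h3 x hk.2⟩
      · exact Or.inr (Finset.mem_range.mpr (by omega))
    refine (Finset.card_le_card h2).trans ((Finset.card_union_le _ _).trans ?_)
    rw [Finset.card_range]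
  have h2 : (Pool.Agent.TH869.PM.cnt (fun k => Pool.Agent.TH869.PM.Many ((2 : ℝ) ^ n k)
      (L k * Real.log ((2 : ℝ) ^ n k)) (c * L k)) K x : ℝ) ≤
      hits (fun k => x * 2 ^ n k) (fun k => (Nat.nth Nat.Prime (n k - 1) : ℝ))
          (fun k => c' * Real.log (n k)) K + k0 := by exact_mod_cast h1
  rw [div_le_iff₀ hc] at hK2
  have hKr : (0 : ℝ) ≤ K := Nat.cast_nonneg _
  have h3 : c' * K ≤ c / 2 * K := mul_le_mul_of_nonneg_right hc'2 hKr
  linarith

end Pool.Agent.Results.MP_78b39f_nt.AlmostEveryDilate
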